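import Mathlib

/-!
Arbitrarily long extremal square-free permutations.

`G m` is a paper-folding order on `0 < i < 2^(m+1)`: odd positions are very high (`1 mod 4`) or
very low (`3 mod 4`), even positions are in between and ordered recursively.  It is square-free.
`F m` modifies eleven entries at each end.
-/

set_option autoImplicit false

namespace Pool.Agent.N661.SQF

/-- two adjacent order-isomorphic blocks of length `l` starting at `i` -/
def Sq (e : ℕ → ℚ) (i l : ℕ) : Prop :=
  ∀ a < l, ∀ b < l, (e (i + a) < e (i + b) ↔ e (i + l + a) < e (i + l + b))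

def G : ℕ → ℕ → ℚ
  | 0, _ => 0
  | (m+1), i => if i % 2 = 0 then G m (i/2) / 4
      else if i % 4 = 1 then 1 + ((i:ℚ) - 2^(m+1)) / 2^(m+3)
      else -1 + ((i:ℚ) - 2^(m+1)) / 2^(m+3)

lemma tie_bd (m i : ℕ) (h : i ≤ 2^(m+2)) : |((i:ℚ) - 2^(m+1)) / 2^(m+3)| ≤ 1/4 := by
  have h1 : (i:ℚ) ≤ 2^(m+2) := by exact_mod_cast h
  have h0 : (0:ℚ) ≤ i := by positivity
  have hp : (0:ℚ) < 2^(m+1) := by positivity
  have e2 : (2:ℚ)^(m+2) = 2 * 2^(m+1) := by ring
  have e3 : (2:ℚ)^(m+3) = 4 * 2^(m+1) := by ring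
  rw [e2] at h1
  rw [e3, abs_div, abs_of_pos (by positivity : (0:ℚ) < 4 * 2^(m+1)), div_le_iff₀ (by positivity)]
  rw [abs_le]; constructor <;> linarith

lemma G_even (m j : ℕ) : G (m+1) (2*j) = G m j / 4 := by
  simp [G]

lemma G_even' (m i : ℕ) (h : i % 2 = 0) : G (m+1) i = G m (i/2) / 4 := by
  simp [G, h]

lemma G_bd (m : ℕ) : ∀ i, i ≤ 2^(m+1) → |G m i| ≤ 5/4 := by
  induction m with
  | zero => intro i _; norm_num [G]
  | succ m ih =>
    intro i hi
    by_cases h2 : i % 2 = 0
    · rw [G_even' m i h2]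
      have := ih (i/2) (by rw [pow_succ] at hi; omega)
      rw [abs_div, abs_of_pos (by norm_num : (0:ℚ) < 4)]
      have := abs_nonneg (G m (i/2))
      linarith
    · have ht := tie_bd m i hi
      rw [abs_le] at ht
      by_cases h4 : i % 4 = 1
      · simp only [G, h2, h4, if_true, if_false]
        rw [abs_le]; constructor <;> linarith
      · simp only [G, h2, h4, if_false]
        rw [abs_le]; constructor <;> linarith

lemma G_one (m i : ℕ) (hi : i ≤ 2^(m+2)) (h4 : i % 4 = 1) : 3/4 ≤ G (m+1) i ∧ G (m+1) i ≤ 5/4 := by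
  have ht := tie_bd m i hi
  rw [abs_le] at ht
  have h2 : ¬ i % 2 = 0 := by omega
  simp only [G, h2, h4, if_true, if_false]
  constructor <;> linarith

lemma G_three (m i : ℕ) (hi : i ≤ 2^(m+2)) (h4 : i % 4 = 3) :
    -5/4 ≤ G (m+1) i ∧ G (m+1) i ≤ -3/4 := by
  have ht := tie_bd m i hi
  rw [abs_le] at ht
  have h2 : ¬ i % 2 = 0 := by omega
  have h1 : ¬ i % 4 = 1 := by omega
  simp only [G, h2, h1, if_false]
  constructor <;> linarith

lemma G_evbd (m i : ℕ) (hi : i ≤ 2^(m+2)) (h2 : i % 2 = 0) :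
    -5/16 ≤ G (m+1) i ∧ G (m+1) i ≤ 5/16 := by
  rw [G_even' m i h2]
  have := G_bd m (i/2) (by rw [show m + 2 = (m+1)+1 from rfl, pow_succ] at hi; omega)
  rw [abs_le] at this
  constructor <;> linarith

lemma G_shape (m i : ℕ) (hi : i + 1 ≤ 2^(m+2)) :
    G (m+1) i < G (m+1) (i+1) ↔ (i % 4 = 0 ∨ i % 4 = 3) := by
  have hc : i % 4 = 0 ∨ i % 4 = 1 ∨ i % 4 = 2 ∨ i % 4 = 3 := by omega
  rcases hc with h | h | h | h
  · have a := G_evbd m i (by omega) (by omega)
    have b := G_one m (i+1) hi (by omega)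
    simp only [h, true_or, iff_true]; linarith
  · have a := G_one m i (by omega) h
    have b := G_evbd m (i+1) hi (by omega)
    simp only [h]; norm_num; linarith
  · have a := G_evbd m i (by omega) (by omega)
    have b := G_three m (i+1) hi (by omega)
    simp only [h]; norm_num; linarith
  · have a := G_three m i (by omega) h
    have b := G_evbd m (i+1) hi (by omega)
    simp only [h, or_true, iff_true]; linarith

lemma G_anti (m : ℕ) : ∀ i, 0 < i → i < 2^(m+1) → G m (2^(m+1) - i) = - G m i := by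
  induction m with
  | zero => intro i _ _; simp [G]
  | succ m ih =>
    intro i h0 hi
    have hp : 2^(m+1+1) = 4 * 2^m := by ring
    have hp1 : 2^(m+1) = 2 * 2^m := by ring
    have hpos : 0 < 2^m := by positivity
    by_cases h2 : i % 2 = 0
    · have e1 : (2^(m+1+1) - i) % 2 = 0 := by omega
      rw [G_even' m i h2, G_even' m _ e1]
      have e2 : (2^(m+1+1) - i)/2 = 2^(m+1) - i/2 := by omega
      rw [e2, ih (i/2) (by omega) (by omega)]
      ring
    · have e1 : ¬ (2^(m+1+1) - i) % 2 = 0 := by omega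
      have hc : ((2^(m+1+1) - i : ℕ) : ℚ) = 2^(m+1+1) - i := by
        rw [Nat.cast_sub hi.le]; push_cast; ring
      by_cases h4 : i % 4 = 1
      · have e4 : ¬ (2^(m+1+1) - i) % 4 = 1 := by omega
        simp only [G, h2, h4, e1, e4, if_true, if_false]
        rw [hc]; ring
      · have e4 : (2^(m+1+1) - i) % 4 = 1 := by omega
        simp only [G, h2, h4, e1, e4, if_true, if_false]
        rw [hc]; ring

lemma G_inj (m : ℕ) : ∀ i j, 0 < i → i < 2^(m+1) → 0 < j → j < 2^(m+1) → G m i = G m j → i = j := by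
  induction m with
  | zero => intro i j _ _ _ _ _; omega
  | succ m ih =>
    intro i j hi0 hi hj0 hj h
    have hp1 : 2^(m+1+1) = 2 * 2^(m+1) := by ring
    have hc : ∀ i : ℕ, i % 2 = 0 ∨ i % 4 = 1 ∨ i % 4 = 3 := by intro i; omega
    have hpq : (0:ℚ) < 2^(m+3) := by positivity
    rcases hc i with a | a | a <;> rcases hc j with b | b | b
    · rw [G_even' m i a, G_even' m j b] at h
      have := ih (i/2) (j/2) (by omega) (by omega) (by omega) (by omega) (by linarith)
      omega
    · have := G_evbd m i hi.le a; have := G_one m j hj.le b; exfalso; linarith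
    · have := G_evbd m i hi.le a; have := G_three m j hj.le b; exfalso; linarith
    · have := G_evbd m j hj.le b; have := G_one m i hi.le a; exfalso; linarith
    · have h2 : ¬ i % 2 = 0 := by omega
      have h2' : ¬ j % 2 = 0 := by omega
      simp only [G, h2, h2', a, b, if_true, if_false] at h
      have h3 : ((i:ℚ) - 2^(m+1)) = ((j:ℚ) - 2^(m+1)) := by
        have : ((i:ℚ) - 2^(m+1)) / 2^(m+3) = ((j:ℚ) - 2^(m+1)) / 2^(m+3) := by linarith
        field_simp at this; linarith
      have : (i:ℚ) = j := by linarith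
      exact_mod_cast this
    · have := G_one m i hi.le a; have := G_three m j hj.le b; exfalso; linarith
    · have := G_evbd m j hj.le b; have := G_three m i hi.le a; exfalso; linarith
    · have := G_one m j hj.le b; have := G_three m i hi.le a; exfalso; linarith
    · have h2 : ¬ i % 2 = 0 := by omega
      have h2' : ¬ j % 2 = 0 := by omega
      have h1 : ¬ i % 4 = 1 := by omega
      have h1' : ¬ j % 4 = 1 := by omega
      simp only [G, h2, h2', h1, h1', if_false] at h
      have h3 : ((i:ℚ) - 2^(m+1)) = ((j:ℚ) - 2^(m+1)) := by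
        have : ((i:ℚ) - 2^(m+1)) / 2^(m+3) = ((j:ℚ) - 2^(m+1)) / 2^(m+3) := by linarith
        field_simp at this; linarith
      have : (i:ℚ) = j := by linarith
      exact_mod_cast this

/-- shape forces `4 ∣ l` -/
lemma sq_four (f : ℕ → ℚ) (lo hi : ℕ)
    (hf : ∀ i, lo ≤ i → i + 1 < hi → (f i < f (i+1) ↔ (i % 4 = 0 ∨ i % 4 = 3)))
    (s l : ℕ) (hl : 2 ≤ l) (hs : lo ≤ s) (he : s + 2 * l ≤ hi) (h : Sq f s l) : l % 4 = 0 := by
  have h1 := h 0 (by omega) 1 (by omega)
  have a1 := hf s hs (by omega)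
  have a2 := hf (s+l) (by omega) (by omega)
  simp only [Nat.add_zero] at h1
  rw [a1, a2] at h1
  by_cases hl3 : 3 ≤ l
  · have h2 := h 1 (by omega) 2 (by omega)
    have b1 := hf (s+1) (by omega) (by omega)
    have b2 := hf (s+l+1) (by omega) (by omega)
    rw [show s + 2 = (s+1)+1 from rfl, show s + l + 2 = (s+l+1)+1 from rfl, b1, b2] at h2
    omega
  · have : l = 2 := by omega
    subst this
    omega

lemma G_sqfree (m : ℕ) : ∀ s l, 2 ≤ l → 1 ≤ s → s + 2 * l ≤ 2^(m+1) → ¬ Sq (G m) s l := by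
  induction m with
  | zero => intro s l hl hs h; omega
  | succ m ih =>
    intro s l hl hs he h
    have hp1 : 2^(m+1+1) = 2 * 2^(m+1) := by ring
    have h4 : l % 4 = 0 := by
      refine sq_four (G (m+1)) 1 (2^(m+1+1)) ?_ s l hl hs he h
      intro i _ hi
      exact G_shape m i (by rw [show m + 2 = m+1+1 from rfl]; omega)
    refine ih ((s+1)/2) (l/2) (by omega) (by omega) (by omega) ?_
    intro a ha b hb
    have key : ∀ c, c < l/2 → ∃ c' < l, s + c' = 2 * ((s+1)/2 + c) ∧
        s + l + c' = 2 * ((s+1)/2 + l/2 + c) := by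
      intro c hc
      refine ⟨2 * ((s+1)/2 + c) - s, by omega, by omega, by omega⟩
    obtain ⟨a', ha', ea1, ea2⟩ := key a ha
    obtain ⟨b', hb', eb1, eb2⟩ := key b hb
    have := h a' ha' b' hb'
    rw [ea1, ea2, eb1, eb2, G_even, G_even, G_even, G_even] at this
    constructor
    · intro h1
      have := this.1 (by linarith)
      linarith
    · intro h1
      have := this.2 (by linarith)
      linarith

end Pool.Agent.N661.SQF
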