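import Pool.Agent.N661.SQF

set_option autoImplicit false

namespace Pool.Agent.N661.SQF

def P : ℕ → ℚ
  | 6 => 18
  | 7 => 11
  | 8 => 12
  | 9 => 17
  | 10 => 15
  | 11 => 13
  | 12 => 14
  | 13 => 16
  | 14 => -25/2
  | 15 => -27/2
  | 16 => -23/2
  | _ => 0

def F (m i : ℕ) : ℚ :=
  if i ≤ 16 then P i else if 2^(m+1) ≤ i + 16 then - P (2^(m+1) - i) else G m i

lemma pow_ge (m : ℕ) (hm : 5 ≤ m) : 64 ≤ 2^(m+1) := by
  calc 64 = 2^(5+1) := by norm_num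
    _ ≤ 2^(m+1) := Nat.pow_le_pow_right (by norm_num) (by omega)

lemma F_left (m i : ℕ) (hi : i ≤ 16) : F m i = P i := by simp [F, hi]

lemma F_mid (m i : ℕ) (h1 : 16 < i) (h2 : i + 16 < 2^(m+1)) : F m i = G m i := by
  simp [F, not_le.mpr h1, not_le.mpr h2]

lemma F_right (m i : ℕ) (h1 : 16 < i) (h2 : 2^(m+1) ≤ i + 16) : F m i = - P (2^(m+1) - i) := by
  simp [F, not_le.mpr h1, h2]

lemma F_anti (m : ℕ) (hm : 5 ≤ m) (i : ℕ) (h0 : 6 ≤ i) (h1 : i + 6 ≤ 2^(m+1)) :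
    F m (2^(m+1) - i) = - F m i := by
  have hp := pow_ge m hm
  by_cases ha : i ≤ 16
  · rw [F_left m i ha, F_right m _ (by omega) (by omega)]
    congr 2; omega
  · by_cases hb : 2^(m+1) ≤ i + 16
    · rw [F_right m i (by omega) hb, F_left m _ (by omega), neg_neg]
    · rw [F_mid m i (by omega) (by omega), F_mid m _ (by omega) (by omega)]
      exact G_anti m i (by omega) (by omega)

lemma P_bd (i : ℕ) (h0 : 6 ≤ i) (h1 : i ≤ 16) : (11 ≤ P i ∧ i ≤ 13) ∨ (P i ≤ -23/2 ∧ 14 ≤ i) := by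
  interval_cases i <;> norm_num [P]

lemma P_inj (i j : ℕ) (h0 : 6 ≤ i) (h1 : i ≤ 16) (h0' : 6 ≤ j) (h1' : j ≤ 16) (h : P i = P j) :
    i = j := by
  interval_cases i <;> interval_cases j <;> first | rfl | (exfalso; norm_num [P] at h)

lemma P_neg (i j : ℕ) (h0 : 6 ≤ i) (h1 : i ≤ 16) (h0' : 6 ≤ j) (h1' : j ≤ 16) (h : P i = - P j) :
    False := by
  interval_cases i <;> interval_cases j <;> (norm_num [P] at h)

lemma F_inj (m : ℕ) (hm : 5 ≤ m) (i j : ℕ) (h0 : 6 ≤ i) (h1 : i + 6 ≤ 2^(m+1))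
    (h0' : 6 ≤ j) (h1' : j + 6 ≤ 2^(m+1)) (h : F m i = F m j) : i = j := by
  have hp := pow_ge m hm
  have hc : ∀ i, 6 ≤ i → i + 6 ≤ 2^(m+1) → i ≤ 16 ∨ (16 < i ∧ 2^(m+1) ≤ i + 16) ∨
      (16 < i ∧ i + 16 < 2^(m+1)) := by intro i _ _; omega
  rcases hc i h0 h1 with a | ⟨a, a'⟩ | ⟨a, a'⟩ <;> rcases hc j h0' h1' with b | ⟨b, b'⟩ | ⟨b, b'⟩
  · rw [F_left m i a, F_left m j b] at h
    exact P_inj i j h0 a h0' b h
  · rw [F_left m i a, F_right m j b b'] at h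
    exact (P_neg i _ h0 a (by omega) (by omega) h).elim
  · rw [F_left m i a, F_mid m j b b'] at h
    have := G_bd m j (by omega); rw [abs_le] at this
    rcases P_bd i h0 a with ⟨c, _⟩ | ⟨c, _⟩ <;> (exfalso; linarith)
  · rw [F_right m i a a', F_left m j b] at h
    exact (P_neg j _ h0' b (by omega) (by omega) h.symm).elim
  · rw [F_right m i a a', F_right m j b b'] at h
    have := P_inj _ _ (by omega) (by omega) (by omega) (by omega) (neg_injective h)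
    omega
  · rw [F_right m i a a', F_mid m j b b'] at h
    have := G_bd m j (by omega); rw [abs_le] at this
    rcases P_bd (2^(m+1) - i) (by omega) (by omega) with ⟨c, _⟩ | ⟨c, _⟩ <;> (exfalso; linarith)
  · rw [F_mid m i a a', F_left m j b] at h
    have := G_bd m i (by omega); rw [abs_le] at this
    rcases P_bd j h0' b with ⟨c, _⟩ | ⟨c, _⟩ <;> (exfalso; linarith)
  · rw [F_mid m i a a', F_right m j b b'] at h
    have := G_bd m i (by omega); rw [abs_le] at this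
    rcases P_bd (2^(m+1) - j) (by omega) (by omega) with ⟨c, _⟩ | ⟨c, _⟩ <;> (exfalso; linarith)
  · rw [F_mid m i a a', F_mid m j b b'] at h
    exact G_inj m i j (by omega) (by omega) (by omega) (by omega) h

lemma G_shape' (m i : ℕ) (hm : 5 ≤ m) (hi : i + 1 ≤ 2^(m+1)) :
    G m i < G m (i+1) ↔ (i % 4 = 0 ∨ i % 4 = 3) := by
  obtain ⟨m', rfl⟩ : ∃ m', m = m' + 1 := ⟨m - 1, by omega⟩
  exact G_shape m' i hi

lemma F_shape_left (m : ℕ) (hm : 5 ≤ m) (i : ℕ) (h0 : 6 ≤ i) (h1 : i + 1 + 16 < 2^(m+1)) :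
    F m i < F m (i+1) ↔ (i % 4 = 0 ∨ i % 4 = 3) := by
  have hp := pow_ge m hm
  by_cases ha : i ≤ 15
  · rw [F_left m i (by omega), F_left m (i+1) (by omega)]
    interval_cases i <;> norm_num [P]
  · by_cases hb : i = 16
    · subst hb
      rw [F_left m 16 le_rfl, F_mid m 17 (by omega) (by omega)]
      have := G_bd m 17 (by omega); rw [abs_le] at this
      norm_num [P]; linarith
    · rw [F_mid m i (by omega) (by omega), F_mid m (i+1) (by omega) (by omega)]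
      exact G_shape' m i hm (by omega)

lemma F_shape (m : ℕ) (hm : 5 ≤ m) (i : ℕ) (h0 : 6 ≤ i) (h1 : i + 1 < 2^(m+1) - 5) :
    F m i < F m (i+1) ↔ (i % 4 = 0 ∨ i % 4 = 3) := by
  have hp := pow_ge m hm
  by_cases ha : i + 1 + 16 < 2^(m+1)
  · exact F_shape_left m hm i h0 ha
  · have e1 := F_anti m hm i h0 (by omega)
    have e2 := F_anti m hm (i+1) (by omega) (by omega)
    have e3 := F_shape_left m hm (2^(m+1) - (i+1)) (by omega) (by omega)
    rw [show 2^(m+1) - (i+1) + 1 = 2^(m+1) - i by omega, e1, e2] at e3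
    have e4 : F m i < F m (i+1) ↔ - F m (i+1) < - F m i := by
      constructor <;> intro h <;> linarith
    rw [e4, e3]
    have : 2^(m+1) % 4 = 0 := by
      have : 2^(m+1) = 4 * 2^(m-1) := by
        rw [show (4:ℕ) = 2^2 by norm_num, ← pow_add]; congr 1; omega
      omega
    omega

/-- bounds for the first few entries -/
lemma G_H0 (m i : ℕ) (hm : 5 ≤ m) (hi : i ≤ 2^(m+1)) (h : i % 4 = 1) : 3/4 ≤ G m i ∧ G m i ≤ 5/4 := by
  obtain ⟨m', rfl⟩ : ∃ m', m = m' + 1 := ⟨m - 1, by omega⟩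
  exact G_one m' i hi h

lemma G_L0 (m i : ℕ) (hm : 5 ≤ m) (hi : i ≤ 2^(m+1)) (h : i % 4 = 3) :
    -5/4 ≤ G m i ∧ G m i ≤ -3/4 := by
  obtain ⟨m', rfl⟩ : ∃ m', m = m' + 1 := ⟨m - 1, by omega⟩
  exact G_three m' i hi h

lemma G_H1 (m i : ℕ) (hm : 5 ≤ m) (hi : i ≤ 2^(m+1)) (h : i % 8 = 2) : 3/16 ≤ G m i ∧ G m i ≤ 5/16 := by
  obtain ⟨m', rfl⟩ : ∃ m', m = m' + 2 := ⟨m - 2, by omega⟩
  rw [show m' + 2 = (m'+1)+1 from rfl, G_even' _ i (by omega)]
  have hp : 2^(m'+2+1) = 2 * 2^(m'+2) := by ring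
  have := G_one m' (i/2) (by omega) (by omega)
  constructor <;> linarith

lemma G_L1 (m i : ℕ) (hm : 5 ≤ m) (hi : i ≤ 2^(m+1)) (h : i % 8 = 6) :
    -5/16 ≤ G m i ∧ G m i ≤ -3/16 := by
  obtain ⟨m', rfl⟩ : ∃ m', m = m' + 2 := ⟨m - 2, by omega⟩
  rw [show m' + 2 = (m'+1)+1 from rfl, G_even' _ i (by omega)]
  have hp : 2^(m'+2+1) = 2 * 2^(m'+2) := by ring
  have := G_three m' (i/2) (by omega) (by omega)
  constructor <;> linarith

lemma G_H2 (m i : ℕ) (hm : 5 ≤ m) (hi : i ≤ 2^(m+1)) (h : i % 16 = 4) :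
    3/64 ≤ G m i ∧ G m i ≤ 5/64 := by
  obtain ⟨m', rfl⟩ : ∃ m', m = m' + 3 := ⟨m - 3, by omega⟩
  rw [show m' + 3 = (m'+2)+1 from rfl, G_even' _ i (by omega),
    show m' + 2 = (m'+1)+1 from rfl, G_even' _ (i/2) (by omega)]
  have hp : 2^(m'+3+1) = 4 * 2^(m'+2) := by ring
  have := G_one m' (i/2/2) (by omega) (by omega)
  constructor <;> linarith

lemma G_L2 (m i : ℕ) (hm : 5 ≤ m) (hi : i ≤ 2^(m+1)) (h : i % 16 = 12) :
    -5/64 ≤ G m i ∧ G m i ≤ -3/64 := by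
  obtain ⟨m', rfl⟩ : ∃ m', m = m' + 3 := ⟨m - 3, by omega⟩
  rw [show m' + 3 = (m'+2)+1 from rfl, G_even' _ i (by omega),
    show m' + 2 = (m'+1)+1 from rfl, G_even' _ (i/2) (by omega)]
  have hp : 2^(m'+3+1) = 4 * 2^(m'+2) := by ring
  have := G_three m' (i/2/2) (by omega) (by omega)
  constructor <;> linarith

lemma G_C (m i : ℕ) (hm : 5 ≤ m) (hi : i ≤ 2^(m+1)) (h : i % 8 = 0) :
    -5/256 ≤ G m i ∧ G m i ≤ 5/256 := by
  obtain ⟨m', rfl⟩ : ∃ m', m = m' + 3 := ⟨m - 3, by omega⟩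
  rw [show m' + 3 = (m'+2)+1 from rfl, G_even' _ i (by omega),
    show m' + 2 = (m'+1)+1 from rfl, G_even' _ (i/2) (by omega)]
  have hp : 2^(m'+3+1) = 4 * 2^(m'+2) := by ring
  have := G_evbd m' (i/2/2) (by omega) (by omega)
  constructor <;> linarith

end Pool.Agent.N661.SQF
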