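import Pool.Agent.N661.SQF2

set_option autoImplicit false

namespace Pool.Agent.N661.SQF

lemma F_local (m : ℕ) (hm : 5 ≤ m) (s l : ℕ) (hl : l = 4 ∨ l = 8 ∨ l = 12) (h6 : 6 ≤ s)
    (hs : s ≤ 16) (he : s + l ≤ 19) : ¬ Sq (F m) s l := by
  have hp := pow_ge m hm

  have f6 : F m 6 = P 6 := F_left m 6 (by norm_num)
  have f7 : F m 7 = P 7 := F_left m 7 (by norm_num)
  have f8 : F m 8 = P 8 := F_left m 8 (by norm_num)
  have f9 : F m 9 = P 9 := F_left m 9 (by norm_num)
  have f10 : F m 10 = P 10 := F_left m 10 (by norm_num)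
  have f11 : F m 11 = P 11 := F_left m 11 (by norm_num)
  have f12 : F m 12 = P 12 := F_left m 12 (by norm_num)
  have f13 : F m 13 = P 13 := F_left m 13 (by norm_num)
  have f14 : F m 14 = P 14 := F_left m 14 (by norm_num)
  have f15 : F m 15 = P 15 := F_left m 15 (by norm_num)
  have f16 : F m 16 = P 16 := F_left m 16 (by norm_num)
  simp only [P] at f6 f7 f8 f9 f10 f11 f12 f13 f14 f15 f16
  have e17 : F m 17 = G m 17 := F_mid m 17 (by norm_num) (by omega)
  have g17 := G_H0 m 17 hm (by omega) (by norm_num)
  have e18 : F m 18 = G m 18 := F_mid m 18 (by norm_num) (by omega)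
  have g18 := G_H1 m 18 hm (by omega) (by norm_num)
  have e19 : F m 19 = G m 19 := F_mid m 19 (by norm_num) (by omega)
  have g19 := G_L0 m 19 hm (by omega) (by norm_num)
  have e20 : F m 20 = G m 20 := F_mid m 20 (by norm_num) (by omega)
  have g20 := G_H2 m 20 hm (by omega) (by norm_num)
  have e21 : F m 21 = G m 21 := F_mid m 21 (by norm_num) (by omega)
  have g21 := G_H0 m 21 hm (by omega) (by norm_num)
  have e22 : F m 22 = G m 22 := F_mid m 22 (by norm_num) (by omega)
  have g22 := G_L1 m 22 hm (by omega) (by norm_num)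
  have e23 : F m 23 = G m 23 := F_mid m 23 (by norm_num) (by omega)
  have g23 := G_L0 m 23 hm (by omega) (by norm_num)
  have e24 : F m 24 = G m 24 := F_mid m 24 (by norm_num) (by omega)
  have g24 := G_C m 24 hm (by omega) (by norm_num)
  have e25 : F m 25 = G m 25 := F_mid m 25 (by norm_num) (by omega)
  have g25 := G_H0 m 25 hm (by omega) (by norm_num)
  have e26 : F m 26 = G m 26 := F_mid m 26 (by norm_num) (by omega)
  have g26 := G_H1 m 26 hm (by omega) (by norm_num)
  have e27 : F m 27 = G m 27 := F_mid m 27 (by norm_num) (by omega)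
  have g27 := G_L0 m 27 hm (by omega) (by norm_num)
  have e28 : F m 28 = G m 28 := F_mid m 28 (by norm_num) (by omega)
  have g28 := G_L2 m 28 hm (by omega) (by norm_num)
  have e29 : F m 29 = G m 29 := F_mid m 29 (by norm_num) (by omega)
  have g29 := G_H0 m 29 hm (by omega) (by norm_num)
  have e30 : F m 30 = G m 30 := F_mid m 30 (by norm_num) (by omega)
  have g30 := G_L1 m 30 hm (by omega) (by norm_num)
  intro h
  rcases hl with rfl | rfl | rfl
  · have hs' : s ≤ 15 := by omega
    interval_cases s
    · have h1 := h 3 (by norm_num) 0 (by norm_num)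
      norm_num at h1
      have h2 : F m 9 < F m 6 := by linarith
      have h3 : F m 10 < F m 13 := by linarith
      exact absurd (h1.1 h2) (not_lt.mpr h3.le)
    · have h1 := h 0 (by norm_num) 3 (by norm_num)
      norm_num at h1
      have h2 : F m 7 < F m 10 := by linarith
      have h3 : F m 14 < F m 11 := by linarith
      exact absurd (h1.1 h2) (not_lt.mpr h3.le)
    · have h1 := h 0 (by norm_num) 2 (by norm_num)
      norm_num at h1
      have h2 : F m 8 < F m 10 := by linarith
      have h3 : F m 14 < F m 12 := by linarith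
      exact absurd (h1.1 h2) (not_lt.mpr h3.le)
    · have h1 := h 3 (by norm_num) 1 (by norm_num)
      norm_num at h1
      have h2 : F m 12 < F m 10 := by linarith
      have h3 : F m 14 < F m 16 := by linarith
      exact absurd (h1.1 h2) (not_lt.mpr h3.le)
    · have h1 := h 2 (by norm_num) 0 (by norm_num)
      norm_num at h1
      have h2 : F m 12 < F m 10 := by linarith
      have h3 : F m 14 < F m 16 := by linarith
      exact absurd (h1.1 h2) (not_lt.mpr h3.le)
    · have h1 := h 3 (by norm_num) 0 (by norm_num)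
      norm_num at h1
      have h2 : F m 14 < F m 11 := by linarith
      have h3 : F m 15 < F m 18 := by linarith
      exact absurd (h1.1 h2) (not_lt.mpr h3.le)
    · have h1 := h 2 (by norm_num) 0 (by norm_num)
      norm_num at h1
      have h2 : F m 14 < F m 12 := by linarith
      have h3 : F m 16 < F m 18 := by linarith
      exact absurd (h1.1 h2) (not_lt.mpr h3.le)
    · have h1 := h 1 (by norm_num) 3 (by norm_num)
      norm_num at h1
      have h2 : F m 14 < F m 16 := by linarith
      have h3 : F m 20 < F m 18 := by linarith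
      exact absurd (h1.1 h2) (not_lt.mpr h3.le)
    · have h1 := h 0 (by norm_num) 2 (by norm_num)
      norm_num at h1
      have h2 : F m 14 < F m 16 := by linarith
      have h3 : F m 20 < F m 18 := by linarith
      exact absurd (h1.1 h2) (not_lt.mpr h3.le)
    · have h1 := h 1 (by norm_num) 3 (by norm_num)
      norm_num at h1
      have h2 : F m 16 < F m 18 := by linarith
      have h3 : F m 22 < F m 20 := by linarith
      exact absurd (h1.1 h2) (not_lt.mpr h3.le)
  · have hs' : s ≤ 11 := by omega
    interval_cases s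
    · have h1 := h 2 (by norm_num) 0 (by norm_num)
      norm_num at h1
      have h2 : F m 8 < F m 6 := by linarith
      have h3 : F m 14 < F m 16 := by linarith
      exact absurd (h1.1 h2) (not_lt.mpr h3.le)
    · have h1 := h 7 (by norm_num) 0 (by norm_num)
      norm_num at h1
      have h2 : F m 14 < F m 7 := by linarith
      have h3 : F m 15 < F m 22 := by linarith
      exact absurd (h1.1 h2) (not_lt.mpr h3.le)
    · have h1 := h 6 (by norm_num) 0 (by norm_num)
      norm_num at h1
      have h2 : F m 14 < F m 8 := by linarith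
      have h3 : F m 16 < F m 22 := by linarith
      exact absurd (h1.1 h2) (not_lt.mpr h3.le)
    · have h1 := h 5 (by norm_num) 2 (by norm_num)
      norm_num at h1
      have h2 : F m 14 < F m 11 := by linarith
      have h3 : F m 19 < F m 22 := by linarith
      exact absurd (h1.1 h2) (not_lt.mpr h3.le)
    · have h1 := h 4 (by norm_num) 1 (by norm_num)
      norm_num at h1
      have h2 : F m 14 < F m 11 := by linarith
      have h3 : F m 19 < F m 22 := by linarith
      exact absurd (h1.1 h2) (not_lt.mpr h3.le)
    · have h1 := h 3 (by norm_num) 0 (by norm_num)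
      norm_num at h1
      have h2 : F m 14 < F m 11 := by linarith
      have h3 : F m 19 < F m 22 := by linarith
      exact absurd (h1.1 h2) (not_lt.mpr h3.le)
  · have hs' : s ≤ 7 := by omega
    interval_cases s
    · have h1 := h 2 (by norm_num) 4 (by norm_num)
      norm_num at h1
      have h2 : F m 8 < F m 10 := by linarith
      have h3 : F m 22 < F m 20 := by linarith
      exact absurd (h1.1 h2) (not_lt.mpr h3.le)
    · have h1 := h 1 (by norm_num) 3 (by norm_num)
      norm_num at h1
      have h2 : F m 8 < F m 10 := by linarith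
      have h3 : F m 22 < F m 20 := by linarith
      exact absurd (h1.1 h2) (not_lt.mpr h3.le)

lemma F_sq_left (m : ℕ) (hm : 5 ≤ m) (s l : ℕ) (hl : 2 ≤ l) (h6 : 6 ≤ s) (hs : s ≤ 16)
    (he : s + 2 * l ≤ 2^(m+1) - 5) : ¬ Sq (F m) s l := by
  have hp := pow_ge m hm
  intro h
  have h4 : l % 4 = 0 := sq_four (F m) 6 (2^(m+1) - 5) (fun i a b => F_shape m hm i a b) s l hl h6 he h
  by_cases hc : s + l ≤ 19
  · exact F_local m hm s l (by omega) h6 hs hc h
  · -- violation pair (16, 19)
    have h1 := h (16 - s) (by omega) (19 - s) (by omega)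
    rw [show s + (16 - s) = 16 by omega, show s + (19 - s) = 19 by omega,
      show s + l + (16 - s) = 16 + l by omega, show s + l + (19 - s) = 19 + l by omega] at h1
    have e16 : F m 16 = P 16 := F_left m 16 le_rfl
    have e19 : F m 19 = G m 19 := F_mid m 19 (by norm_num) (by omega)
    have g19 := G_L0 m 19 hm (by omega) (by norm_num)
    simp only [P] at e16
    have h2 := h1.1 (by linarith)
    have e1 : F m (16+l) = G m (16+l) := F_mid m (16+l) (by omega) (by omega)
    have e2 : F m (19+l) = G m (19+l) := F_mid m (19+l) (by omega) (by omega)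
    have g2 := G_L0 m (19+l) hm (by omega) (by omega)
    have g1 : -5/16 ≤ G m (16+l) := by
      obtain ⟨m', rfl⟩ : ∃ m', m = m' + 1 := ⟨m - 1, by omega⟩
      exact (G_evbd m' (16+l) (by rw [show m' + 2 = m'+1+1 from rfl]; omega) (by omega)).1
    linarith

/-- reversal -/
lemma sq_rev (e e' : ℕ → ℚ) (n : ℕ) (he : ∀ k, k ≤ n → e k = - e' (n - k)) (i l : ℕ)
    (hi : i + 2 * l ≤ n + 1) (h : Sq e' i l) : Sq e (n + 1 - i - 2 * l) l := by
  intro a ha b hb
  have h1 := h (l - 1 - b) (by omega) (l - 1 - a) (by omega)
  rw [he _ (by omega), he _ (by omega), he _ (by omega), he _ (by omega)]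
  rw [show n - (n + 1 - i - 2 * l + a) = i + l + (l - 1 - a) by omega,
    show n - (n + 1 - i - 2 * l + b) = i + l + (l - 1 - b) by omega,
    show n - (n + 1 - i - 2 * l + l + a) = i + (l - 1 - a) by omega,
    show n - (n + 1 - i - 2 * l + l + b) = i + (l - 1 - b) by omega]
  rw [neg_lt_neg_iff, neg_lt_neg_iff]
  exact h1.symm

/-- the sequence re-indexed from `0` -/
def f (m k : ℕ) : ℚ := F m (k + 6)

lemma f_anti (m : ℕ) (hm : 5 ≤ m) (k : ℕ) (hk : k ≤ 2^(m+1) - 12) :
    f m k = - f m (2^(m+1) - 12 - k) := by
  have hp := pow_ge m hm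
  unfold f
  rw [show 2^(m+1) - 12 - k + 6 = 2^(m+1) - (k+6) by omega, F_anti m hm (k+6) (by omega) (by omega)]
  ring

lemma f_sqfree (m : ℕ) (hm : 5 ≤ m) (s l : ℕ) (hl : 2 ≤ l) (he : s + 2 * l ≤ 2^(m+1) - 11) :
    ¬ Sq (f m) s l := by
  have hp := pow_ge m hm
  have key : ∀ s, s + 2 * l ≤ 2^(m+1) - 11 → s ≤ 10 → ¬ Sq (f m) s l := by
    intro s he hs h
    refine F_sq_left m hm (s+6) l hl (by omega) (by omega) (by omega) ?_
    intro a ha b hb
    have := h a ha b hb
    unfold f at this
    rw [show s + 6 + a = s + a + 6 by ring, show s + 6 + b = s + b + 6 by ring,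
      show s + 6 + l + a = s + l + a + 6 by ring, show s + 6 + l + b = s + l + b + 6 by ring]
    exact this
  intro h
  by_cases ha : s ≤ 10
  · exact key s he ha h
  · by_cases hb : s + 2 * l ≤ 2^(m+1) - 22
    · refine G_sqfree m (s+6) l hl (by omega) (by omega) ?_
      intro a ha b hb
      have := h a ha b hb
      unfold f at this
      rw [F_mid m _ (by omega) (by omega), F_mid m _ (by omega) (by omega),
        F_mid m _ (by omega) (by omega), F_mid m _ (by omega) (by omega)] at this
      rw [show s + 6 + a = s + a + 6 by ring, show s + 6 + b = s + b + 6 by ring,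
        show s + 6 + l + a = s + l + a + 6 by ring, show s + 6 + l + b = s + l + b + 6 by ring]
      exact this
    · have := sq_rev (f m) (f m) (2^(m+1) - 12) (fun k hk => f_anti m hm k hk) s l (by omega) h
      exact key _ (by omega) (by omega) this

end Pool.Agent.N661.SQF
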