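import Pool.Agent.N661.SQF3

set_option autoImplicit false

namespace Pool.Agent.N661.SQF

/-- insertion of `x` at slot `p` -/
def ins {α : Type} (p : ℕ) (x : α) (g : ℕ → α) (k : ℕ) : α :=
  if k < p then g k else if k = p then x else g (k - 1)

/-- rank pattern of the first fifteen entries, doubled -/
def pat : ℕ → ℕ
  | 0 => 30
  | 1 => 16
  | 2 => 18
  | 3 => 28
  | 4 => 24
  | 5 => 20
  | 6 => 22
  | 7 => 26
  | 8 => 4
  | 9 => 2
  | 10 => 6
  | 11 => 14
  | 12 => 12
  | 13 => 8
  | 14 => 10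
  | _ => 0

/-- inverse: index of the entry of rank `j` -/
def inv : ℕ → ℕ
  | 1 => 9
  | 2 => 8
  | 3 => 10
  | 4 => 13
  | 5 => 14
  | 6 => 12
  | 7 => 11
  | 8 => 1
  | 9 => 2
  | 10 => 5
  | 11 => 6
  | 12 => 4
  | 13 => 7
  | 14 => 3
  | 15 => 0
  | _ => 0

lemma inv_pat (k : ℕ) (hk : k < 15) : inv (pat k / 2) = k ∧ 1 ≤ pat k / 2 ∧ pat k / 2 ≤ 15 ∧
    pat k % 2 = 0 := by
  interval_cases k <;> simp [pat, inv]

lemma chain_step (m : ℕ) (hm : 5 ≤ m) (j : ℕ) (h1 : 1 ≤ j) (h2 : j < 15) :
    f m (inv j) < f m (inv (j+1)) := by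
  have hp := pow_ge m hm
  have f6 : F m 6 = P 6 := F_left m 6 (by norm_num)
  have f7 : F m 7 = P 7 := F_left m 7 (by norm_num)
  have f8 : F m 8 = P 8 := F_left m 8 (by norm_num)
  have f9 : F m 9 = P 9 := F_left m 9 (by norm_num)
  have f10 : F m 10 = P 10 := F_left m 10 (by norm_num)
  have f11 : F m 11 = P 11 := F_left m 11 (by norm_num)
  have f12 : F m 12 = P 12 := F_left m 12 (by norm_num)
  have f13 : F m 13 = P 13 := F_left m 13 (by norm_num)
  have f14 : F m 14 = P 14 := F_left m 14 (by norm_num)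
  have f15 : F m 15 = P 15 := F_left m 15 (by norm_num)
  have f16 : F m 16 = P 16 := F_left m 16 (by norm_num)
  simp only [P] at f6 f7 f8 f9 f10 f11 f12 f13 f14 f15 f16
  have e17 : F m 17 = G m 17 := F_mid m 17 (by norm_num) (by omega)
  have g17 := G_H0 m 17 hm (by omega) (by norm_num)
  have e18 : F m 18 = G m 18 := F_mid m 18 (by norm_num) (by omega)
  have g18 := G_H1 m 18 hm (by omega) (by norm_num)
  have e19 : F m 19 = G m 19 := F_mid m 19 (by norm_num) (by omega)
  have g19 := G_L0 m 19 hm (by omega) (by norm_num)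
  have e20 : F m 20 = G m 20 := F_mid m 20 (by norm_num) (by omega)
  have g20 := G_H2 m 20 hm (by omega) (by norm_num)
  unfold f
  interval_cases j <;> simp only [inv, Nat.reduceAdd] <;> linarith

lemma chain_mono (m : ℕ) (hm : 5 ≤ m) (j k : ℕ) (h1 : 1 ≤ j) (h2 : j < k) (h3 : k ≤ 15) :
    f m (inv j) < f m (inv k) := by
  induction k with
  | zero => omega
  | succ k ih =>
    by_cases hk : j < k
    · exact (ih hk (by omega)).trans (chain_step m hm k (by omega) (by omega))
    · have : j = k := by omega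
      subst this
      exact chain_step m hm j h1 (by omega)

lemma chain_cut (m : ℕ) (hm : 5 ≤ m) (x : ℚ) (hx : ∀ k < 15, x ≠ f m k) :
    ∃ t ≤ 15, ∀ k < 15, (f m k < x ↔ pat k < 2 * t + 1) ∧ (x < f m k ↔ 2 * t + 1 < pat k) := by
  classical
  let t := Nat.findGreatest (fun j => j = 0 ∨ f m (inv j) < x) 15
  have ht : t ≤ 15 := Nat.findGreatest_le 15
  have hspec : t = 0 ∨ f m (inv t) < x :=
    Nat.findGreatest_spec (P := fun j => j = 0 ∨ f m (inv j) < x) (Nat.zero_le 15) (Or.inl rfl)
  have hgt : ∀ j, t < j → j ≤ 15 → ¬ (j = 0 ∨ f m (inv j) < x) := fun j h1 h2 =>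
    Nat.findGreatest_is_greatest h1 h2
  refine ⟨t, ht, ?_⟩
  intro k hk
  obtain ⟨h1, h2, h3, h4⟩ := inv_pat k hk
  set j := pat k / 2 with hj
  have hpk : pat k = 2 * j := by omega
  have hne := hx k hk
  have hlt : f m k < x ↔ j ≤ t := by
    constructor
    · intro h
      by_contra hcon
      exact hgt j (by omega) h3 (Or.inr (by rw [h1]; exact h))
    · intro h
      have h5 : f m (inv t) < x := by
        rcases hspec with h0 | h0
        · omega
        · exact h0
      rcases Nat.lt_or_ge j t with h6 | h6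
      · have := chain_mono m hm j t h2 h6 ht
        rw [h1] at this
        exact this.trans h5
      · have : j = t := by omega
        rw [← this, h1] at h5
        exact h5
  constructor
  · rw [hlt, hpk]; omega
  · constructor
    · intro h
      have : ¬ j ≤ t := fun hh => absurd (hlt.2 hh) (not_lt.mpr h.le)
      omega
    · intro h
      have : ¬ f m k < x := fun hh => by have := hlt.1 hh; omega
      exact lt_of_le_of_ne (not_lt.mp this) hne

lemma pat_lt (m : ℕ) (hm : 5 ≤ m) (k l : ℕ) (hk : k < 15) (hl : l < 15) :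
    f m k < f m l ↔ pat k < pat l := by
  obtain ⟨h1, h2, h3, h4⟩ := inv_pat k hk
  obtain ⟨g1, g2, g3, g4⟩ := inv_pat l hl
  rcases lt_trichotomy (pat k / 2) (pat l / 2) with h | h | h
  · have := chain_mono m hm _ _ h2 h g3
    rw [h1, g1] at this
    exact ⟨fun _ => by omega, fun _ => this⟩
  · have : k = l := by rw [← h1, ← g1, h]
    subst this
    simp
  · have := chain_mono m hm _ _ g2 h h3
    rw [h1, g1] at this
    constructor
    · intro h'; exact absurd h' (not_lt.mpr this.le)
    · intro h'; omega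

lemma ins_pat (m : ℕ) (hm : 5 ≤ m) (x : ℚ) (t p : ℕ) (hp : p ≤ 2)
    (h : ∀ k < 15, (f m k < x ↔ pat k < 2 * t + 1) ∧ (x < f m k ↔ 2 * t + 1 < pat k))
    (k l : ℕ) (hk : k < 16) (hl : l < 16) :
    ins p x (f m) k < ins p x (f m) l ↔ ins p (2*t+1) pat k < ins p (2*t+1) pat l := by
  unfold ins
  split_ifs with h1 h2 h3 h4 h5 h6 h7 h8
  · exact pat_lt m hm k l (by omega) (by omega)
  · exact (h k (by omega)).1
  · exact pat_lt m hm k (l-1) (by omega) (by omega)
  · exact (h l (by omega)).2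
  · simp
  · exact (h (l-1) (by omega)).2
  · exact pat_lt m hm (k-1) l (by omega) (by omega)
  · exact (h (k-1) (by omega)).1
  · exact pat_lt m hm (k-1) (l-1) (by omega) (by omega)

/-- the finite check -/
def chk (p t i l : ℕ) : Bool :=
  decide (∀ a < l, ∀ b < l, (ins p (2*t+1) pat (i + a) < ins p (2*t+1) pat (i + b) ↔
    ins p (2*t+1) pat (i + l + a) < ins p (2*t+1) pat (i + l + b)))

lemma finite_check : ∀ p < 3, ∀ t < 16, (chk p t 0 2 || chk p t 1 2 || chk p t 0 4 || chk p t 0 8) = true := by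
  decide +kernel

lemma left_blocked (m : ℕ) (hm : 5 ≤ m) (x : ℚ) (hx : ∀ k < 15, x ≠ f m k) (p : ℕ) (hp : p ≤ 2) :
    ∃ i l, 2 ≤ l ∧ i + 2 * l ≤ 16 ∧ Sq (ins p x (f m)) i l := by
  obtain ⟨t, ht, h⟩ := chain_cut m hm x hx
  have key : ∀ i l, i + 2 * l ≤ 16 → chk p t i l = true → Sq (ins p x (f m)) i l := by
    intro i l hil hc a ha b hb
    unfold chk at hc
    have := of_decide_eq_true hc a ha b hb
    rw [ins_pat m hm x t p hp h _ _ (by omega) (by omega),
      ins_pat m hm x t p hp h _ _ (by omega) (by omega)]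
    exact this
  have := finite_check p (by omega) t (by omega)
  simp only [Bool.or_eq_true] at this
  rcases this with ((h1 | h1) | h1) | h1
  · exact ⟨0, 2, by norm_num, by norm_num, key 0 2 (by norm_num) h1⟩
  · exact ⟨1, 2, by norm_num, by norm_num, key 1 2 (by norm_num) h1⟩
  · exact ⟨0, 4, by norm_num, by norm_num, key 0 4 (by norm_num) h1⟩
  · exact ⟨0, 8, by norm_num, by norm_num, key 0 8 (by norm_num) h1⟩

lemma f_shape (m : ℕ) (hm : 5 ≤ m) (k : ℕ) (hk : k + 1 < 2^(m+1) - 11) :
    f m k < f m (k+1) ↔ (k % 4 = 1 ∨ k % 4 = 2) := by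
  have hp := pow_ge m hm
  have := F_shape m hm (k+6) (by omega) (by omega)
  unfold f
  rw [show k + 1 + 6 = k + 6 + 1 by ring, this]
  omega

lemma mid_blocked (m : ℕ) (hm : 5 ≤ m) (x : ℚ) (p : ℕ) (hp : 3 ≤ p) (hp' : p + 3 ≤ 2^(m+1) - 11)
    (hx : x ≠ f m (p-1) ∧ x ≠ f m p) :
    ∃ i, i + 4 ≤ 2^(m+1) - 11 + 1 ∧ Sq (ins p x (f m)) i 2 := by
  have hpw := pow_ge m hm
  set e := ins p x (f m) with he
  -- values of e around p
  have v0 : e (p-3) = f m (p-3) := by simp [he, ins, show p - 3 < p by omega]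
  have v1 : e (p-2) = f m (p-2) := by simp [he, ins, show p - 2 < p by omega]
  have v2 : e (p-1) = f m (p-1) := by simp [he, ins, show p - 1 < p by omega]
  have v3 : e p = x := by simp [he, ins]
  have v4 : e (p+1) = f m p := by simp [he, ins]
  have v5 : e (p+2) = f m (p+1) := by simp [he, ins]
  have v6 : e (p+3) = f m (p+2) := by simp [he, ins]
  have s0 := f_shape m hm (p-3) (by omega)
  have s1 := f_shape m hm (p-2) (by omega)
  have s3 := f_shape m hm p (by omega)
  have s4 := f_shape m hm (p+1) (by omega)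
  rw [show p - 3 + 1 = p - 2 by omega] at s0
  rw [show p - 2 + 1 = p - 1 by omega] at s1
  rw [show p + 1 + 1 = p + 2 by omega] at s4
  have d0 : f m (p-3) ≠ f m (p-2) := by
    intro h; have := F_inj m hm _ _ (by omega) (by omega) (by omega) (by omega) h; omega
  have d1 : f m (p-2) ≠ f m (p-1) := by
    intro h; have := F_inj m hm _ _ (by omega) (by omega) (by omega) (by omega) h; omega
  have d3 : f m p ≠ f m (p+1) := by
    intro h; have := F_inj m hm _ _ (by omega) (by omega) (by omega) (by omega) h; omega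
  have d4 : f m (p+1) ≠ f m (p+2) := by
    intro h; have := F_inj m hm _ _ (by omega) (by omega) (by omega) (by omega) h; omega
  -- a square of half-length 2
  have mk : ∀ i, e i ≠ e (i+1) → e (i+2) ≠ e (i+3) → (e i < e (i+1) ↔ e (i+2) < e (i+3)) → Sq e i 2 := by
    intro i h1 h2 h3 a ha b hb
    have h4 : e (i+1) < e i ↔ e (i+3) < e (i+2) := by
      constructor
      · intro h
        have : ¬ e (i+2) < e (i+3) := fun hh => absurd (h3.2 hh) (not_lt.mpr h.le)
        exact lt_of_le_of_ne (not_lt.mp this) (Ne.symm h2)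
      · intro h
        have : ¬ e i < e (i+1) := fun hh => absurd (h3.1 hh) (not_lt.mpr h.le)
        exact lt_of_le_of_ne (not_lt.mp this) (Ne.symm h1)
    interval_cases a <;> interval_cases b <;> simp only [Nat.add_zero, lt_irrefl, add_assoc, Nat.reduceAdd]
    · exact h3
    · exact h4
  have u : f m (p-1) < x ↔ ¬ x < f m (p-1) :=
    ⟨fun h => not_lt.mpr h.le, fun h => lt_of_le_of_ne (not_lt.mp h) hx.1.symm⟩
  by_cases c1 : (f m (p-3) < f m (p-2) ↔ f m (p-1) < x)
  · refine ⟨p-3, by omega, mk (p-3) ?_ ?_ ?_⟩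
    · rw [show p - 3 + 1 = p - 2 by omega, v0, v1]; exact d0
    · rw [show p - 3 + 2 = p - 1 by omega, show p - 3 + 3 = p by omega, v2, v3]; exact hx.1.symm
    · rw [show p - 3 + 1 = p - 2 by omega, show p - 3 + 2 = p - 1 by omega,
        show p - 3 + 3 = p by omega, v0, v1, v2, v3]; exact c1
  · by_cases c2 : (f m (p-2) < f m (p-1) ↔ x < f m p)
    · refine ⟨p-2, by omega, mk (p-2) ?_ ?_ ?_⟩
      · rw [show p - 2 + 1 = p - 1 by omega, v1, v2]; exact d1
      · rw [show p - 2 + 2 = p by omega, show p - 2 + 3 = p + 1 by omega, v3, v4]; exact hx.2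
      · rw [show p - 2 + 1 = p - 1 by omega, show p - 2 + 2 = p by omega,
          show p - 2 + 3 = p + 1 by omega, v1, v2, v3, v4]; exact c2
    · by_cases c3 : (f m (p-1) < x ↔ f m p < f m (p+1))
      · refine ⟨p-1, by omega, mk (p-1) ?_ ?_ ?_⟩
        · rw [show p - 1 + 1 = p by omega, v2, v3]; exact hx.1.symm
        · rw [show p - 1 + 2 = p + 1 by omega, show p - 1 + 3 = p + 2 by omega, v4, v5]; exact d3
        · rw [show p - 1 + 1 = p by omega, show p - 1 + 2 = p + 1 by omega,
            show p - 1 + 3 = p + 2 by omega, v2, v3, v4, v5]; exact c3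
      · by_cases c4 : (x < f m p ↔ f m (p+1) < f m (p+2))
        · refine ⟨p, by omega, mk p ?_ ?_ ?_⟩
          · rw [v3, v4]; exact hx.2
          · rw [v5, v6]; exact d4
          · rw [v3, v4, v5, v6]; exact c4
        · exfalso
          rw [s0] at c1
          rw [s1] at c2
          rw [s3] at c3
          rw [s4] at c4
          have hc : p % 4 = 0 ∨ p % 4 = 1 ∨ p % 4 = 2 ∨ p % 4 = 3 := by omega
          by_cases q1 : f m (p-1) < x <;> by_cases q2 : x < f m p <;>
            simp only [q1, q2, iff_true, iff_false, true_iff, false_iff, not_not] at c1 c2 c3 c4 <;> omega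

end Pool.Agent.N661.SQF
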